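import Pool.Agent.W680.WH.Stm

/-!
# WHH-WIE: Wiener lemma for unitary operators
-/

set_option autoImplicit false

open scoped ComplexConjugate InnerProductSpace
open ContinuousLinearMap Filter

namespace Pool.Agent.W132.WH
open Pool.Agent.W680.WH

theorem wie (h1 : S_CPT) : S_WIE := by
  intro K _ _ _ U x s η c hU hU' hc hj
  obtain ⟨C, hcpt, hadj, hpos, hne, hcomm, hv⟩ := h1 K U x s η c hU hU' hc hj
  have hsa : IsSelfAdjoint C := by
    rw [ContinuousLinearMap.isSelfAdjoint_iff']; exact hadj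
  have hsym : (C : K →ₗ[ℂ] K).IsSymmetric := hsa.isSymmetric
  have hex : ∃ μ : ℂ, Module.End.HasEigenvalue (C : Module.End ℂ K) μ ∧ μ ≠ 0 := by
    by_contra hcon
    push Not at hcon
    exact hne ((ContinuousLinearMap.eq_zero_of_forall_hasEigenvalue_eq_zero hcpt hsym).1 hcon)
  obtain ⟨μ, hμ, hμ0⟩ := hex
  have hfd : FiniteDimensional ℂ (Module.End.eigenspace (C : Module.End ℂ K) μ) :=
    ContinuousLinearMap.finite_dimensional_eigenspace hcpt μ hμ0
  have hinv : ∀ v ∈ Module.End.eigenspace (C : Module.End ℂ K) μ,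
      (U : K →ₗ[ℂ] K) v ∈ Module.End.eigenspace (C : Module.End ℂ K) μ := by
    intro v hvm
    rw [Module.End.mem_eigenspace_iff] at hvm ⊢
    have e1 : C (U v) = U (C v) := by
      have := congrArg (fun A : K →L[ℂ] K => A v) hcomm
      simpa using this
    have e2 : C v = μ • v := hvm
    change C (U v) = μ • U v
    rw [e1, e2, map_smul]
  have hnt : Nontrivial (Module.End.eigenspace (C : Module.End ℂ K) μ) := by
    obtain ⟨v, hv1⟩ := hμ.exists_hasEigenvector
    exact ⟨⟨⟨v, hv1.1⟩, 0, fun h => hv1.2 (by simpa using congrArg Subtype.val h)⟩⟩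
  obtain ⟨l, hl⟩ := Module.End.exists_eigenvalue ((U : K →ₗ[ℂ] K).restrict hinv)
  obtain ⟨v, hv1⟩ := hl.exists_hasEigenvector
  have hvU' : U (v : K) = l • (v : K) := by
    have h2 := hv1.apply_eq_smul
    simpa using congrArg Subtype.val h2
  have hv0' : (v : K) ≠ 0 := fun h => hv1.2 (Subtype.ext h)
  have hvC' : C (v : K) = μ • (v : K) := by
    have := v.2
    rw [Module.End.mem_eigenspace_iff] at this
    exact this
  obtain ⟨w, hvU, hv0, hvC⟩ : ∃ w : K, U w = l • w ∧ w ≠ 0 ∧ C w = μ • w :=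
    ⟨v, hvU', hv0', hvC'⟩
  have hnorm : ∀ f : K, ‖U f‖ = ‖f‖ := by
    intro f
    have h3 : ‖U f‖ ^ 2 = ‖f‖ ^ 2 := by
      have h4 : ⟪U f, U f⟫_ℂ = ⟪f, f⟫_ℂ := by
        rw [← ContinuousLinearMap.adjoint_inner_right]
        have := congrArg (fun A : K →L[ℂ] K => A f) hU
        simp only [mul_apply_eq_comp, one_apply_eq_self] at this
        rw [this]
      rw [inner_self_eq_norm_sq_to_K, inner_self_eq_norm_sq_to_K] at h4
      exact_mod_cast h4
    exact (sq_eq_sq₀ (norm_nonneg _) (norm_nonneg _)).1 h3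
  have hl1 : ‖l‖ = 1 := by
    have h5 := hnorm w
    rw [hvU, norm_smul] at h5
    have h6 : 0 < ‖w‖ := norm_pos_iff.2 hv0
    nlinarith [h5, h6, mul_right_cancel₀ h6.ne' (h5.trans (one_mul _).symm)]
  refine ⟨l, w, hl1, hvU, ?_⟩
  intro hzero
  have h7 := hv w l hl1 hvU
  rw [hzero, hvC, inner_smul_right, inner_self_eq_norm_sq_to_K] at h7
  have h8 : (conj μ) = μ := hsym.conj_eigenvalue_eq_self hμ
  have h9 : ((μ.re : ℝ) : ℂ) = μ := Complex.conj_eq_iff_re.1 h8
  rw [← h9] at h7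
  have h10 : μ.re * ‖w‖ ^ 2 = 0 := by
    have : (((μ.re : ℝ) : ℂ) * ((‖w‖ : ℝ) : ℂ) ^ 2).re = μ.re * ‖w‖ ^ 2 := by
      rw [← Complex.ofReal_pow, ← Complex.ofReal_mul, Complex.ofReal_re]
    have h11 : (((μ.re : ℝ) : ℂ) * ((‖w‖ : ℝ) : ℂ) ^ 2).re = 0 := by
      simpa using h7
    rw [this] at h11
    exact h11
  rcases mul_eq_zero.1 h10 with h12 | h12
  · apply hμ0
    rw [← h9, h12]
    simp
  · exact hv0 (norm_eq_zero.1 (pow_eq_zero_iff (two_ne_zero)|>.1 h12))

end Pool.Agent.W132.WH
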